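import Pool.Agent.Lib.MP_1ca924_an.Regular

/-!
# A `B`-regular boundary point which is not `lB`-regular

The domain is (up to the identification of `ℂ` with `ℝ²`) the union of the disc `B(2,1)` and of the
thin sectors `{ 0 < |z| < 3, π/n < arg z < 2π/n }`, `n = 16, 32, 64, ...`, with common vertex `0`.
-/

set_option autoImplicit false

open MeasureTheory Metric Set Filter Topology

namespace Pool.Agent.Results.MP_1ca924_an.BRegNotLocal

open Pool.Agent.Lib.MP_1ca924_an

lemma zero_notMem_Om : (0 : ℂ) ∉ Om := by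
  rw [mem_Om_iff (by simp)]
  rintro ⟨j, hj⟩
  exact sec_ne_zero (nj_four j) hj rfl

lemma zero_mem_closure_Om : (0 : ℂ) ∈ closure Om := by
  rw [Metric.mem_closure_iff]
  intro ε hε
  set t : ℝ := min ε 1 / 2 with ht
  have hmin : 0 < min ε 1 := lt_min hε one_pos
  have ht0 : 0 < t := by positivity
  have htε : t < ε := by have := min_le_left ε 1; linarith
  have ht1 : t < 1 := by have := min_le_right ε 1; linarith
  have hmem : P (nj 0) t (Real.pi / 2) ∈ sec (nj 0) :=
    P_mem (nj_four 0) ht0 ⟨by positivity, by linarith [Real.pi_pos]⟩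
  have hnorm : ‖P (nj 0) t (Real.pi / 2)‖ = t := norm_P ht0.le
  refine ⟨P (nj 0) t (Real.pi / 2), (mem_Om_iff (by rw [hnorm]; exact ht1)).2 ⟨0, hmem⟩, ?_⟩
  rw [dist_zero_left, hnorm]
  exact htε

lemma zero_mem_frontier_Om : (0 : ℂ) ∈ frontier Om := by
  rw [isOpen_Om.frontier_eq]
  exact ⟨zero_mem_closure_Om, zero_notMem_Om⟩

lemma isConnected_reg (j : ℕ) : IsConnected (reg (nj j)) := by
  have h1 : reg (nj j) = (fun p : ℝ × ℝ => P (nj j) p.1 p.2) '' (Ioo 0 3 ×ˢ Ioo 0 Real.pi) := by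
    ext z
    constructor
    · rintro ⟨hz1, hz2⟩
      obtain ⟨θ, hθ, hz⟩ := exists_P (nj_four j) hz1
      refine ⟨(‖z‖, θ), ⟨⟨norm_pos_iff.2 (sec_ne_zero (nj_four j) hz1), ?_⟩, hθ⟩, hz.symm⟩
      simpa using hz2
    · rintro ⟨⟨τ, θ⟩, ⟨hτ, hθ⟩, rfl⟩
      refine ⟨P_mem (nj_four j) hτ.1 hθ, ?_⟩
      rw [mem_ball_zero_iff, norm_P hτ.1.le]
      exact hτ.2
  rw [h1]
  apply IsConnected.image
  · exact (isConnected_Ioo (by norm_num)).prod (isConnected_Ioo Real.pi_pos)
  · apply Continuous.continuousOn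
    unfold P
    fun_prop

lemma reg_meets_disc (j : ℕ) : (ball (2:ℂ) 1 ∩ reg (nj j)).Nonempty := by
  refine ⟨P (nj j) 2 (Real.pi / 2), ?_, P_mem (nj_four j) (by norm_num)
    ⟨by positivity, by linarith [Real.pi_pos]⟩, ?_⟩
  · rw [mem_ball, dist_eq_norm]
    unfold P
    set x : ℝ := (Real.pi + Real.pi / 2) / (nj j : ℕ) with hx
    have hn : (16 : ℝ) ≤ nj j := by exact_mod_cast nj_ge j
    have hx0 : 0 ≤ x := by positivity
    have hx1 : x ≤ 3 / 10 := by
      rw [hx, div_le_iff₀ (by linarith)]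
      nlinarith [Real.pi_lt_d2]
    have h2 : ‖Complex.exp ((x : ℝ) * Complex.I) - 1‖ ≤ |x| := by
      have := Real.norm_exp_I_mul_ofReal_sub_one_le (x := x)
      rw [mul_comm]
      simpa using this
    have h3 : ((2:ℝ) : ℂ) * Complex.exp ((x : ℝ) * Complex.I) - 2
        = 2 * (Complex.exp ((x : ℝ) * Complex.I) - 1) := by push_cast; ring
    rw [h3, norm_mul]
    rw [abs_of_nonneg hx0] at h2
    have h4 : ‖(2:ℂ)‖ = 2 := by simp
    rw [h4]
    linarith
  · rw [mem_ball_zero_iff, norm_P (by norm_num)]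
    norm_num

lemma isConnected_Om : IsConnected Om := by
  have h1 : Om = ⋃ j : ℕ, (ball 2 1 ∪ reg (nj j)) := by
    unfold Om
    rw [iUnion_union_distrib, iUnion_const]
  rw [h1]
  refine ⟨⟨2, ?_⟩, ?_⟩
  · rw [mem_iUnion]
    exact ⟨0, Or.inl (mem_ball_self one_pos)⟩
  · apply isPreconnected_iUnion
    · refine ⟨2, ?_⟩
      rw [mem_iInter]
      intro j
      exact Or.inl (mem_ball_self one_pos)
    · intro j
      obtain ⟨z, hz1, hz2⟩ := reg_meets_disc j
      exact IsPreconnected.union z hz1 hz2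
        (convex_ball (2:ℂ) 1).isPreconnected (isConnected_reg j).isPreconnected

/-- There are a bounded connected open set `Ω` of the plane and a boundary point `y` which is
`B`-regular but not `lB`-regular. -/
theorem result :
    ∃ (Ω : Set (EuclideanSpace ℝ (Fin 2))) (y : EuclideanSpace ℝ (Fin 2)),
      IsOpen Ω ∧ IsConnected Ω ∧ Bornology.IsBounded Ω ∧ y ∈ frontier Ω ∧
        BRegular Ω y ∧ ¬ LBRegular Ω y := by
  let e : EuclideanSpace ℝ (Fin 2) ≃ₗᵢ[ℝ] ℂ := Complex.orthonormalBasisOneI.repr.symm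
  refine ⟨e ⁻¹' Om, 0, isOpen_Om.preimage e.continuous, ?_, ?_, ?_, ?_, ?_⟩
  · have h1 : e ⁻¹' Om = e.symm '' Om := by
      ext z
      constructor
      · intro hz
        exact ⟨e z, hz, by simp⟩
      · rintro ⟨w, hw, rfl⟩
        simpa using hw
    rw [h1]
    exact isConnected_Om.image _ e.symm.continuous.continuousOn
  · exact e.isometry.antilipschitz.isBounded_preimage isBounded_Om
  · rw [frontier_preimage_iso, mem_preimage, map_zero]
    exact zero_mem_frontier_Om
  · apply BRegular.comp_iso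
    rw [map_zero]
    intro f h hfh hbd
    exact regular_Om hfh.2 hbd
  · rintro ⟨r, hr0, hr, hreg⟩
    obtain ⟨m, hm⟩ := (hr.eventually (gt_mem_nhds (show (0:ℝ) < 1 from one_pos))).exists
    have h1 := hreg m
    apply not_BRegular_OmR (hr0 m) hm.le
    have h2 : OmR (r m) = e.symm ⁻¹' (ball 0 (r m) ∩ e ⁻¹' Om) := by
      ext z
      simp [OmR]
    rw [h2]
    apply BRegular.comp_iso
    rw [map_zero]
    exact h1

end Pool.Agent.Results.MP_1ca924_an.BRegNotLocal
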